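import Pool.Agent.AT3.Stmts1
import Pool.Agent.Helper25_K9.PRG

/-!
# Squad AT3, row RIN: characters fixed by the power map
-/

open scoped BigOperators

noncomputable section

namespace Pool.Agent.PP.T3.H14

open Pool.Agent.Helper51_AWC Pool.Agent.Helper79_WRA Pool.Agent.PP Pool.Agent.PP.KF
open Pool.Agent.PP.K9 Pool.Agent.PP.K9.H97 Pool.Agent.PP.H75

attribute [local instance] Ideal.Quotient.field

theorem geom_int (q i : ℕ) (ζ : ℂ) (hζ : ζ ^ q = 1) :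
    ∃ z : ℤ, ∑ j ∈ Finset.range q, ζ ^ (i * j) = z := by
  by_cases h : ζ ^ i = 1
  · refine ⟨q, ?_⟩
    rw [Finset.sum_congr rfl (fun j _ => by rw [pow_mul, h, one_pow])]
    simp
  · refine ⟨0, ?_⟩
    have h2 : (∑ j ∈ Finset.range q, ζ ^ (i * j)) * (ζ ^ i - 1) = 0 := by
      rw [Finset.sum_congr rfl (fun j _ => pow_mul ζ i j), geom_sum_mul, ← pow_mul, mul_comm i q,
        pow_mul, hζ, one_pow, sub_self]
    rcases mul_eq_zero.1 h2 with h3 | h3
    · rw [h3, Int.cast_zero]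
    · exact absurd (sub_eq_zero.1 h3) h

theorem ram_int (ℓ q i : ℕ) (hl : 0 < ℓ) (ζ : ℂ) (hζ : ζ ^ (ℓ * q) = 1) :
    ∃ z : ℤ, ∑ j ∈ (Finset.range (ℓ * q)).filter (fun j => ¬ ℓ ∣ j), ζ ^ (i * j) = z := by
  obtain ⟨z1, h1⟩ := geom_int (ℓ * q) i ζ hζ
  obtain ⟨z2, h2⟩ := geom_int q i (ζ ^ ℓ) (by rw [← pow_mul]; exact hζ)
  refine ⟨z1 - z2, ?_⟩
  have h3 := Finset.sum_filter_add_sum_filter_not (Finset.range (ℓ * q)) (fun j => ℓ ∣ j)
    (fun j => ζ ^ (i * j))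
  have h4 : ∑ j ∈ (Finset.range (ℓ * q)).filter (fun j => ℓ ∣ j), ζ ^ (i * j) =
      ∑ j ∈ Finset.range q, (ζ ^ ℓ) ^ (i * j) := by
    have h5 : (Finset.range (ℓ * q)).filter (fun j => ℓ ∣ j) =
        (Finset.range q).image (fun j => ℓ * j) := by
      ext j
      simp only [Finset.mem_filter, Finset.mem_range, Finset.mem_image]
      constructor
      · rintro ⟨hj, c, rfl⟩
        exact ⟨c, Nat.lt_of_mul_lt_mul_left hj, rfl⟩
      · rintro ⟨c, hc, rfl⟩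
        exact ⟨Nat.mul_lt_mul_of_pos_left hc hl, dvd_mul_right _ _⟩
    rw [h5, Finset.sum_image (fun a _ b _ hab => Nat.eq_of_mul_eq_mul_left hl hab)]
    refine Finset.sum_congr rfl fun j _ => ?_
    rw [← pow_mul]
    congr 1
    ring
  rw [h4, h2, h1] at h3
  push_cast
  rw [← h3]
  ring

theorem int_of (v : ℂ) (hv : IsIntegral ℤ v) (Z : ℤ) (n : ℕ) (hn : n ≠ 0)
    (h : (n : ℂ) * v = Z) : ∃ z : ℤ, v = z := by
  have hn' : (n : ℂ) ≠ 0 := Nat.cast_ne_zero.2 hn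
  have h1 : v = algebraMap ℚ ℂ ((Z : ℚ) / n) := by
    have : v = (Z : ℂ) / n := by
      rw [eq_div_iff hn', mul_comm]
      exact h
    rw [this]
    simp
  rw [h1] at hv
  have h2 : IsIntegral ℤ ((Z : ℚ) / n) :=
    (isIntegral_algebraMap_iff (algebraMap ℚ ℂ).injective).1 hv
  obtain ⟨z, hz⟩ := IsIntegrallyClosed.algebraMap_eq_of_integral h2
  refine ⟨z, ?_⟩
  rw [h1, ← hz]
  simp

section grp

variable {G : Type} [Group G]

theorem pow_pow_fix (N : ℕ) (χ : G → ℂ) (h : ∀ g, χ (g ^ N) = χ g) (k : ℕ) (g : G) :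
    χ (g ^ N ^ k) = χ g := by
  induction k with
  | zero => simp
  | succ k ih => rw [pow_succ, pow_mul, h, ih]

theorem reg_pow_fix (ℓ N : ℕ) (h : ∀ g : G, Reg ℓ g → g ^ N = g) (k : ℕ) (g : G)
    (hg : Reg ℓ g) : g ^ N ^ k = g := by
  induction k with
  | zero => simp
  | succ k ih => rw [pow_succ, pow_mul, ih, h g hg]

end grp

theorem rin (wbo : WboStmt) (inr : InrStmt) : RinStmt := by
  intro ℓ hℓ M hMm hM G _ _ N hN u hu b hb d hd χ hχ hfix
  classical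
  obtain ⟨n, hn⟩ := hu
  have hl : 0 < ℓ := hℓ.out.pos
  have hq : 0 < ℓ ^ (n + 1) := pow_pos hl _
  have hu2 : u ^ ℓ ^ (n + 1) = 1 := by rw [pow_succ, pow_mul, hn, one_pow]
  have hζ : IsPrimitiveRoot (Complex.exp (2 * Real.pi * Complex.I / (ℓ ^ (n + 1) : ℕ)))
      (ℓ ^ (n + 1)) := Complex.isPrimitiveRoot_exp _ hq.ne'
  set ζ : ℂ := Complex.exp (2 * Real.pi * Complex.I / (ℓ ^ (n + 1) : ℕ)) with hζdef
  obtain ⟨m, hm⟩ := inr M G u (ℓ ^ (n + 1)) hq hu2 b hb d hd ζ hζ χ hχ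
  have hd0 : (d : ℂ) ≠ 0 := Nat.cast_ne_zero.2 hd.1.ne'
  -- invariance
  have key : ∀ j : ℕ, ¬ ℓ ∣ j → gv M (Cu u) (u ^ j) b χ = gv M (Cu u) u b χ := by
    intro j hj
    obtain ⟨k, hk⟩ := hN.gen j hj
    unfold gv gbv
    refine finsum_congr fun c => ?_
    by_cases hc : Reg ℓ (c : Cu u)
    · congr 1
      have hc2 : Reg ℓ (c : G) := by
        unfold Reg at hc ⊢
        rwa [Subgroup.orderOf_coe]
      have hcomm : Commute u (c : G) := (Subgroup.mem_centralizer_singleton_iff.1 c.2).symm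
      have e1 : (u * (c : G)) ^ N ^ k = u ^ j * c := by
        rw [hcomm.mul_pow, hk u ⟨n, hn⟩, reg_pow_fix ℓ N hN.reg k _ hc2]
      rw [← e1]
      exact pow_pow_fix N χ hfix k _
    · letI := Fintype.ofFinite G
      letI : Fintype (Cu u) := Fintype.ofFinite _
      rw [H25.eh_sing wbo ℓ M hM (fun t : Cu u => b t) hb.idem c hc, zero_mul, zero_mul]
  set v : ℂ := ∑ i ∈ Finset.range (ℓ ^ (n + 1)), (m i : ℂ) * ζ ^ i with hv
  have hval : gv M (Cu u) u b χ = d * v := by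
    have := hm 1
    rw [pow_one] at this
    rw [this, hv]
    simp only [mul_one]
  have hj : ∀ j : ℕ, ¬ ℓ ∣ j →
      ∑ i ∈ Finset.range (ℓ ^ (n + 1)), (m i : ℂ) * ζ ^ (i * j) = v := by
    intro j hj
    have h1 := key j hj
    rw [hm j, hval] at h1
    exact mul_left_cancel₀ hd0 h1
  have hpow : ℓ ^ (n + 1) = ℓ * ℓ ^ n := by rw [pow_succ, mul_comm]
  have hζq : ζ ^ (ℓ * ℓ ^ n) = 1 := by rw [← hpow]; exact hζ.pow_eq_one
  choose z hz using fun i => ram_int ℓ (ℓ ^ n) i hl ζ hζq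
  set F : Finset ℕ := (Finset.range (ℓ * ℓ ^ n)).filter (fun j => ¬ ℓ ∣ j) with hF
  have hFc : F.card ≠ 0 := by
    have : 1 ∈ F := by
      rw [hF, Finset.mem_filter, Finset.mem_range]
      refine ⟨?_, fun h => hℓ.out.one_lt.ne' (Nat.dvd_one.1 h)⟩
      have h1 : 1 ≤ ℓ ^ n := Nat.one_le_pow _ _ hl
      have h2 := hℓ.out.two_le
      nlinarith
    exact (Finset.card_pos.2 ⟨1, this⟩).ne'
  have hsum : (F.card : ℂ) * v = ((∑ i ∈ Finset.range (ℓ ^ (n + 1)), m i * z i : ℤ) : ℂ) := by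
    have h1 : ∑ j ∈ F, ∑ i ∈ Finset.range (ℓ ^ (n + 1)), (m i : ℂ) * ζ ^ (i * j) =
        (F.card : ℂ) * v := by
      rw [Finset.sum_congr rfl (fun j hjF => hj j (Finset.mem_filter.1 hjF).2),
        Finset.sum_const, nsmul_eq_mul]
    rw [← h1, Finset.sum_comm]
    push_cast
    refine Finset.sum_congr rfl fun i _ => ?_
    rw [← Finset.mul_sum, hz i]
  have hint : IsIntegral ℤ v := by
    rw [hv]
    refine IsIntegral.sum _ fun i _ => ?_
    refine IsIntegral.mul ?_ ((hζ.isIntegral hq).pow i)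
    exact isIntegral_algebraMap (R := ℤ) (A := ℂ) (x := m i)
  obtain ⟨y, hy⟩ := int_of v hint _ F.card hFc hsum
  exact ⟨y, by rw [hval, hy]⟩

end Pool.Agent.PP.T3.H14
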